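import Pool.Agent.W306.SP.Defs

set_option autoImplicit false
set_option linter.all false

/-! # SP project: positivity of `I_m(t)` for `t ≤ m` -/

namespace Pool.Agent.W333.SP

open MeasureTheory Pool.Agent.W306.SP

theorem hpow (m : ℕ) (s : ℝ) :
    HasDerivAt (fun s : ℝ => (1 - s ^ 2) ^ (m + 1)) (((m : ℝ) + 1) * (1 - s ^ 2) ^ m * (-(2 * s))) s := by
  have h1 : HasDerivAt (fun s : ℝ => 1 - s ^ 2) (-(2 * s)) s := by
    have := ((hasDerivAt_id s).pow 2).const_sub 1
    simpa using this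
  have h2 := h1.pow (m + 1)
  have e : ((m + 1 : ℕ) : ℝ) * (1 - s ^ 2) ^ (m + 1 - 1) * (-(2 * s)) =
      ((m : ℝ) + 1) * (1 - s ^ 2) ^ m * (-(2 * s)) := by
    push_cast
    rfl
  rw [e] at h2
  exact h2

theorem intC (m : ℕ) (t : ℝ) :
    IntervalIntegrable (fun s : ℝ => Real.cos (t * s) * (1 - s ^ 2) ^ m) volume (-1) 1 :=
  Continuous.intervalIntegrable (by fun_prop) _ _

theorem intP (m : ℕ) : IntervalIntegrable (fun s : ℝ => (1 - s ^ 2) ^ m) volume (-1) 1 :=
  Continuous.intervalIntegrable (by fun_prop) _ _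

theorem rec (m : ℕ) (t : ℝ) :
    4 * ((m : ℝ) + 2) * (m + 1) * I m t = 2 * ((m : ℝ) + 2) * (2 * m + 3) * I (m + 1) t -
      t ^ 2 * I (m + 2) t := by
  have hd : ∀ s ∈ Set.uIcc (-1 : ℝ) 1, HasDerivAt
      (fun s : ℝ => Real.cos (t * s) * (-(2 * ((m : ℝ) + 2)) * (s * (1 - s ^ 2) ^ (m + 1))) +
        t * Real.sin (t * s) * (1 - s ^ 2) ^ (m + 2))
      (4 * ((m : ℝ) + 2) * (m + 1) * (Real.cos (t * s) * (1 - s ^ 2) ^ m) -
        2 * ((m : ℝ) + 2) * (2 * m + 3) * (Real.cos (t * s) * (1 - s ^ 2) ^ (m + 1)) +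
        t ^ 2 * (Real.cos (t * s) * (1 - s ^ 2) ^ (m + 2))) s := by
    intro s _
    have h0 : HasDerivAt (fun s : ℝ => t * s) t s := by
      simpa using (hasDerivAt_id s).const_mul t
    have h1 : HasDerivAt (fun s : ℝ => Real.cos (t * s)) (-Real.sin (t * s) * t) s := h0.cos
    have h2 : HasDerivAt (fun s : ℝ => Real.sin (t * s)) (Real.cos (t * s) * t) s := h0.sin
    have h3 := hpow m s
    have h4 := hpow (m + 1) s
    have h5 := (h1.mul ((((hasDerivAt_id s).mul h3)).const_mul (-(2 * ((m : ℝ) + 2))))).add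
      ((h2.const_mul t).mul h4)
    refine h5.congr_deriv ?_
    simp only [id, Pi.mul_apply, Nat.cast_add, Nat.cast_one]
    ring
  have hi : IntervalIntegrable (fun s : ℝ =>
      (4 * ((m : ℝ) + 2) * (m + 1) * (Real.cos (t * s) * (1 - s ^ 2) ^ m) -
        2 * ((m : ℝ) + 2) * (2 * m + 3) * (Real.cos (t * s) * (1 - s ^ 2) ^ (m + 1)) +
        t ^ 2 * (Real.cos (t * s) * (1 - s ^ 2) ^ (m + 2)))) volume (-1) 1 :=
    Continuous.intervalIntegrable (by fun_prop) _ _
  have h := intervalIntegral.integral_eq_sub_of_hasDerivAt hd hi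
  rw [intervalIntegral.integral_add (((intC m t).const_mul _).sub ((intC (m + 1) t).const_mul _))
    ((intC (m + 2) t).const_mul _), intervalIntegral.integral_sub ((intC m t).const_mul _)
    ((intC (m + 1) t).const_mul _), intervalIntegral.integral_const_mul,
    intervalIntegral.integral_const_mul, intervalIntegral.integral_const_mul] at h
  have e1 : (1 - (1 : ℝ) ^ 2) = 0 := by norm_num
  have e2 : (1 - (-1 : ℝ) ^ 2) = 0 := by norm_num
  rw [e1, e2, zero_pow (by omega), zero_pow (by omega)] at h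
  simp only [mul_zero, add_zero, sub_zero] at h
  unfold I
  linarith

theorem I_zero (m : ℕ) : I m 0 = ∫ s in (-1 : ℝ)..1, (1 - s ^ 2) ^ m := by
  unfold I
  simp

theorem W_rec (m : ℕ) : (2 * (m : ℝ) + 3) * I (m + 1) 0 = (2 * m + 2) * I m 0 := by
  rw [I_zero, I_zero]
  have hd : ∀ s ∈ Set.uIcc (-1 : ℝ) 1, HasDerivAt (fun s : ℝ => s * (1 - s ^ 2) ^ (m + 1))
      ((2 * (m : ℝ) + 3) * (1 - s ^ 2) ^ (m + 1) - (2 * m + 2) * (1 - s ^ 2) ^ m) s := by
    intro s _
    refine ((hasDerivAt_id s).mul (hpow m s)).congr_deriv ?_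
    simp only [id]
    ring
  have hi : IntervalIntegrable (fun s : ℝ =>
      (2 * (m : ℝ) + 3) * (1 - s ^ 2) ^ (m + 1) - (2 * m + 2) * (1 - s ^ 2) ^ m) volume (-1) 1 :=
    Continuous.intervalIntegrable (by fun_prop) _ _
  have h := intervalIntegral.integral_eq_sub_of_hasDerivAt hd hi
  rw [intervalIntegral.integral_sub ((intP (m + 1)).const_mul _) ((intP m).const_mul _),
    intervalIntegral.integral_const_mul, intervalIntegral.integral_const_mul] at h
  have e1 : (1 - (1 : ℝ) ^ 2) = 0 := by norm_num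
  have e2 : (1 - (-1 : ℝ) ^ 2) = 0 := by norm_num
  rw [e1, e2, zero_pow (by omega)] at h
  linarith

theorem W_pos (m : ℕ) : 0 < I m 0 := by
  induction m with
  | zero =>
    rw [I_zero]
    simp
  | succ m ih =>
    have h := W_rec m
    have h1 : 0 < (2 * (m : ℝ) + 2) * I m 0 := by positivity
    rw [← h] at h1
    exact pos_of_mul_pos_right h1 (by positivity)

theorem W_anti (m : ℕ) : I (m + 1) 0 ≤ I m 0 := by
  have h := W_rec m
  have h1 := W_pos (m + 1)
  have h2 := W_pos m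
  have hm : (0 : ℝ) ≤ m := Nat.cast_nonneg m
  by_contra hcon
  push Not at hcon
  have h3 : (2 * (m : ℝ) + 3) * I m 0 < (2 * (m : ℝ) + 3) * I (m + 1) 0 :=
    mul_lt_mul_of_pos_left hcon (by positivity)
  nlinarith

theorem nonneg_pow {s : ℝ} (hs : s ∈ Set.Icc (-1 : ℝ) 1) (m : ℕ) : 0 ≤ (1 - s ^ 2) ^ m := by
  apply pow_nonneg
  nlinarith [hs.1, hs.2]

theorem I_le (m : ℕ) (t : ℝ) : I m t ≤ I m 0 := by
  rw [I_zero]
  unfold I
  refine intervalIntegral.integral_mono_on (by norm_num) (intC m t) (intP m) fun s hs => ?_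
  have h := nonneg_pow hs m
  have h1 := Real.cos_le_one (t * s)
  nlinarith

theorem I_ge (m : ℕ) (t : ℝ) : I m 0 - t ^ 2 / 2 * (I m 0 - I (m + 1) 0) ≤ I m t := by
  have h1 : ∫ s in (-1 : ℝ)..1, ((1 - s ^ 2) ^ m - t ^ 2 / 2 * ((1 - s ^ 2) ^ m -
      (1 - s ^ 2) ^ (m + 1))) ≤ I m t := by
    unfold I
    refine intervalIntegral.integral_mono_on (by norm_num)
      (Continuous.intervalIntegrable (by fun_prop) _ _) (intC m t) fun s hs => ?_
    have h := nonneg_pow hs m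
    have h1 := Real.one_sub_sq_div_two_le_cos (x := t * s)
    calc (1 - s ^ 2) ^ m - t ^ 2 / 2 * ((1 - s ^ 2) ^ m - (1 - s ^ 2) ^ (m + 1)) =
        (1 - (t * s) ^ 2 / 2) * (1 - s ^ 2) ^ m := by ring
      _ ≤ _ := mul_le_mul_of_nonneg_right h1 h
  rw [intervalIntegral.integral_sub (intP m) (((intP m).sub (intP (m + 1))).const_mul _),
    intervalIntegral.integral_const_mul, intervalIntegral.integral_sub (intP m) (intP (m + 1)),
    ← I_zero, ← I_zero] at h1
  exact h1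

/-- the induction hypothesis -/
def Pr (t : ℝ) (j : ℕ) : Prop := 0 < I j t ∧ t * I (j + 1) t ≤ 2 * ((j : ℝ) + 1) * I j t

theorem step {t : ℝ} (ht : 0 ≤ t) {i : ℕ} (hi : t ≤ i + 3 / 2) (h : Pr t (i + 1)) : Pr t i := by
  obtain ⟨h1, h2⟩ := h
  have hr := rec i t
  push_cast at h2
  have hi0 : (0 : ℝ) ≤ i := Nat.cast_nonneg i
  have h3 : t * (t * I (i + 2) t) ≤ t * (2 * ((i : ℝ) + 1 + 1) * I (i + 1) t) :=
    mul_le_mul_of_nonneg_left h2 ht
  have h4 : 2 * ((i : ℝ) + 2) * ((2 * i + 3 - t) * I (i + 1) t) ≤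
      4 * ((i : ℝ) + 2) * (i + 1) * I i t := by
    rw [hr]
    nlinarith
  have h5 : (2 * (i : ℝ) + 3 - t) * I (i + 1) t ≤ 2 * (i + 1) * I i t := by
    have : 2 * ((i : ℝ) + 2) * ((2 * i + 3 - t) * I (i + 1) t) ≤
        2 * ((i : ℝ) + 2) * (2 * (i + 1) * I i t) := by linarith
    exact le_of_mul_le_mul_left this (by positivity)
  constructor
  · have h6 : 0 < (2 * (i : ℝ) + 3 - t) * I (i + 1) t := mul_pos (by linarith) h1
    have h7 : 0 < 2 * ((i : ℝ) + 1) * I i t := lt_of_lt_of_le h6 h5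
    exact pos_of_mul_pos_right h7 (by positivity)
  · refine le_trans ?_ h5
    exact mul_le_mul_of_nonneg_right (by linarith) h1.le

theorem large {t : ℝ} (ht : 0 ≤ t) {N : ℕ} (h1 : t ^ 2 ≤ N) (h2 : t ≤ N) : Pr t N := by
  have hN : (0 : ℝ) ≤ N := Nat.cast_nonneg N
  have hW := W_pos N
  have h3 : I N 0 / 2 ≤ I N t := by
    refine le_trans ?_ (I_ge N t)
    have h4 := W_rec N
    have h5 : (2 * (N : ℝ) + 3) * (I N 0 - I (N + 1) 0) = I N 0 := by linarith
    have h6 : 0 ≤ I N 0 - I (N + 1) 0 := by linarith [W_anti N]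
    have h7 : t ^ 2 * (I N 0 - I (N + 1) 0) ≤ (2 * (N : ℝ) + 3) * (I N 0 - I (N + 1) 0) :=
      mul_le_mul_of_nonneg_right (by linarith) h6
    rw [h5] at h7
    linarith
  have h4 : 0 < I N t := by linarith
  refine ⟨h4, ?_⟩
  have h5 : I (N + 1) t ≤ 2 * I N t := by
    have := I_le (N + 1) t
    have := W_anti N
    linarith
  calc t * I (N + 1) t ≤ t * (2 * I N t) := mul_le_mul_of_nonneg_left h5 ht
    _ = 2 * t * I N t := by ring
    _ ≤ 2 * ((N : ℝ) + 1) * I N t := by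
        apply mul_le_mul_of_nonneg_right _ h4.le
        linarith

theorem down {t : ℝ} (ht : 0 ≤ t) {m : ℕ} (hm : t ≤ m) : ∀ k, Pr t (m + k) → Pr t m := by
  intro k
  induction k with
  | zero => exact fun h => h
  | succ k ih =>
    intro h
    apply ih
    refine step ht ?_ h
    push_cast
    have : (0 : ℝ) ≤ k := Nat.cast_nonneg k
    linarith

theorem pos : S_POS := by
  intro m t ht htm
  obtain ⟨k, hk⟩ := exists_nat_ge (t ^ 2)
  have hm : (0 : ℝ) ≤ m := Nat.cast_nonneg m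
  have hk0 : (0 : ℝ) ≤ k := Nat.cast_nonneg k
  refine (down ht htm k (large ht ?_ ?_)).1.le
  · push_cast; linarith
  · push_cast; linarith

end Pool.Agent.W333.SP
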